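import Pool.Agent.H217.CF.Spec

/-!
# Project CF (helper217), task BAD (helper870): the expected number of dense vertex sets
-/

set_option autoImplicit false

namespace Pool.Agent.H870.CF

open Finset Pool.Agent.H217.CF

/-- number of maps with values in `U` on `S` -/
theorem card_maps {q s N : ℕ} (S : Finset (X q s)) (U : Finset (Fin N)) :
    (univ.filter (fun g : X q s → Fin N => ∀ x ∈ S, g x ∈ U)).card =
      U.card ^ S.card * N ^ (q * s - S.card) := by
  classical
  have h1 : (univ.filter (fun g : X q s → Fin N => ∀ x ∈ S, g x ∈ U)) =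
      Fintype.piFinset (fun x : X q s => if x ∈ S then U else univ) := by
    ext g
    simp only [mem_filter, mem_univ, true_and, Fintype.mem_piFinset]
    constructor
    · intro h x
      by_cases hx : x ∈ S
      · rw [if_pos hx]
        exact h x hx
      · rw [if_neg hx]
        exact mem_univ _
    · intro h x hx
      have := h x
      rwa [if_pos hx] at this
  rw [h1, Fintype.card_piFinset]
  have h2 : ∀ x : X q s, (if x ∈ S then U else univ : Finset (Fin N)).card =
      if x ∈ S then U.card else N := by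
    intro x
    split_ifs
    · rfl
    · rw [card_univ, Fintype.card_fin]
  rw [Finset.prod_congr rfl fun x _ => h2 x, Finset.prod_ite, Finset.prod_const, Finset.prod_const]
  have h3 : (univ.filter fun x : X q s => x ∈ S) = S := by
    ext x
    simp
  have h4 : (univ.filter fun x : X q s => x ∉ S) = Sᶜ := by
    ext x
    simp
  rw [h3, h4, card_compl, Fintype.card_prod, Fintype.card_fin, Fintype.card_fin]

/-- the sum for one block -/
theorem one_block {q s N f : ℕ} (hN : 0 < N) (U : Finset (Fin N)) (hU : U.card ≤ f) :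
    ∑ g : X q s → Fin N, (2 * (N : ℝ)) ^ (hits g U - 1) ≤
      (N : ℝ) ^ (q * s) * (1 + (4 * ((f : ℝ) + 1)) ^ (q * s) / N) := by
  classical
  have hN0 : (0 : ℝ) < N := by exact_mod_cast hN
  have h1 : ∀ g : X q s → Fin N, (2 * (N : ℝ)) ^ (hits g U - 1) ≤
      1 + ∑ S : Finset (X q s), if 2 ≤ S.card ∧ ∀ x ∈ S, g x ∈ U then
        (2 * (N : ℝ)) ^ (S.card - 1) else 0 := by
    intro g
    have hnn : ∀ S : Finset (X q s), 0 ≤ (if 2 ≤ S.card ∧ ∀ x ∈ S, g x ∈ U then
        (2 * (N : ℝ)) ^ (S.card - 1) else 0) := by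
      intro S
      split_ifs
      · positivity
      · exact le_rfl
    by_cases h : 2 ≤ hits g U
    · have h2 := Finset.single_le_sum (f := fun S : Finset (X q s) =>
        if 2 ≤ S.card ∧ ∀ x ∈ S, g x ∈ U then (2 * (N : ℝ)) ^ (S.card - 1) else 0)
        (fun S _ => hnn S) (mem_univ (univ.filter fun x => g x ∈ U))
      have h3 : 2 ≤ (univ.filter fun x => g x ∈ U).card ∧
          ∀ x ∈ (univ.filter fun x => g x ∈ U), g x ∈ U :=
        ⟨h, fun x hx => (mem_filter.1 hx).2⟩
      simp only [if_pos h3] at h2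
      have h4 : (univ.filter fun x => g x ∈ U).card = hits g U := rfl
      rw [h4] at h2
      linarith
    · have h2 : hits g U - 1 = 0 := by omega
      rw [h2, pow_zero]
      have := Finset.sum_nonneg fun S (_ : S ∈ (univ : Finset (Finset (X q s)))) => hnn S
      linarith
  have h2 : ∀ S : Finset (X q s), ∑ g : X q s → Fin N,
      (if 2 ≤ S.card ∧ ∀ x ∈ S, g x ∈ U then (2 * (N : ℝ)) ^ (S.card - 1) else 0) ≤
      (2 * ((f : ℝ) + 1)) ^ (q * s) * (N : ℝ) ^ (q * s) / N := by
    intro S
    by_cases hS : 2 ≤ S.card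
    · have hSl : S.card ≤ q * s := by
        have := S.card_le_univ
        rwa [Fintype.card_prod, Fintype.card_fin, Fintype.card_fin] at this
      have e1 : ∑ g : X q s → Fin N,
          (if 2 ≤ S.card ∧ ∀ x ∈ S, g x ∈ U then (2 * (N : ℝ)) ^ (S.card - 1) else 0) =
          (U.card ^ S.card * N ^ (q * s - S.card) : ℕ) * (2 * (N : ℝ)) ^ (S.card - 1) := by
        rw [← card_maps S U, ← nsmul_eq_mul, ← Finset.sum_const, Finset.sum_filter]
        refine Finset.sum_congr rfl fun g _ => ?_
        simp only [hS, true_and]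
      rw [e1, le_div_iff₀ hN0]
      push_cast
      obtain ⟨k, hk⟩ : ∃ k, S.card = k + 1 := ⟨S.card - 1, by omega⟩
      obtain ⟨r, hr⟩ : ∃ r, q * s = (k + 1) + r := ⟨q * s - S.card, by omega⟩
      have e2 : q * s - S.card = r := by omega
      rw [e2, hk, hr, Nat.add_sub_cancel]
      have hu : (U.card : ℝ) ≤ (f : ℝ) + 1 := by
        have : (U.card : ℝ) ≤ f := by exact_mod_cast hU
        linarith
      have hf1 : (1 : ℝ) ≤ 2 * ((f : ℝ) + 1) := by
        have : (0 : ℝ) ≤ f := Nat.cast_nonneg f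
        linarith
      have e3 : (U.card : ℝ) ^ (k + 1) * (N : ℝ) ^ r * (2 * (N : ℝ)) ^ k * N =
          (2 ^ k * (U.card : ℝ) ^ (k + 1)) * (N : ℝ) ^ (k + 1 + r) := by
        rw [mul_pow]
        ring
      rw [e3]
      apply mul_le_mul_of_nonneg_right _ (by positivity)
      calc (2 : ℝ) ^ k * (U.card : ℝ) ^ (k + 1) ≤ 2 ^ (k + 1) * ((f : ℝ) + 1) ^ (k + 1) := by
            exact mul_le_mul (pow_le_pow_right₀ (by norm_num) (Nat.le_succ k))
              (pow_le_pow_left₀ (Nat.cast_nonneg _) hu _) (pow_nonneg (Nat.cast_nonneg _) _)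
              (pow_nonneg (by norm_num) _)
        _ = (2 * ((f : ℝ) + 1)) ^ (k + 1) := by rw [mul_pow]
        _ ≤ (2 * ((f : ℝ) + 1)) ^ (k + 1 + r) := pow_le_pow_right₀ hf1 (Nat.le_add_right _ _)
    · have e1 : ∑ g : X q s → Fin N,
          (if 2 ≤ S.card ∧ ∀ x ∈ S, g x ∈ U then (2 * (N : ℝ)) ^ (S.card - 1) else 0) = 0 := by
        refine Finset.sum_eq_zero fun g _ => ?_
        rw [if_neg fun h => hS h.1]
      rw [e1]
      positivity
  calc ∑ g : X q s → Fin N, (2 * (N : ℝ)) ^ (hits g U - 1) ≤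
      ∑ g : X q s → Fin N, (1 + ∑ S : Finset (X q s),
        if 2 ≤ S.card ∧ ∀ x ∈ S, g x ∈ U then (2 * (N : ℝ)) ^ (S.card - 1) else 0) :=
        Finset.sum_le_sum fun g _ => h1 g
    _ = (N : ℝ) ^ (q * s) + ∑ S : Finset (X q s), ∑ g : X q s → Fin N,
        (if 2 ≤ S.card ∧ ∀ x ∈ S, g x ∈ U then (2 * (N : ℝ)) ^ (S.card - 1) else 0) := by
        rw [Finset.sum_add_distrib, Finset.sum_comm]
        congr 1
        rw [Finset.sum_const, card_univ, Fintype.card_fun, Fintype.card_prod, Fintype.card_fin,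
          Fintype.card_fin, Fintype.card_fin, nsmul_eq_mul, mul_one]
        push_cast
        rfl
    _ ≤ (N : ℝ) ^ (q * s) + ∑ _S : Finset (X q s),
        (2 * ((f : ℝ) + 1)) ^ (q * s) * (N : ℝ) ^ (q * s) / N :=
        add_le_add le_rfl (Finset.sum_le_sum fun S _ => h2 S)
    _ = _ := by
        rw [Finset.sum_const, card_univ, Fintype.card_finset, Fintype.card_prod, Fintype.card_fin,
          Fintype.card_fin, nsmul_eq_mul]
        push_cast
        have e : (4 * ((f : ℝ) + 1)) ^ (q * s) = 2 ^ (q * s) * (2 * ((f : ℝ) + 1)) ^ (q * s) := by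
          rw [← mul_pow]
          congr 1
          ring
        rw [e]
        ring

/-- the number of the small sets -/
theorem sum_sets {N : ℕ} (hN : 0 < N) (f : ℕ) :
    ∑ U ∈ univ.filter (fun U : Finset (Fin N) => U.Nonempty ∧ U.card ≤ f),
      1 / (N : ℝ) ^ U.card ≤ f := by
  classical
  have hN0 : (0 : ℝ) < N := by exact_mod_cast hN
  have hmaps : ∀ U ∈ univ.filter (fun U : Finset (Fin N) => U.Nonempty ∧ U.card ≤ f),
      U.card ∈ Icc 1 f := by
    intro U hU
    rw [mem_filter] at hU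
    rw [mem_Icc]
    exact ⟨hU.2.1.card_pos, hU.2.2⟩
  rw [← Finset.sum_fiberwise_of_maps_to hmaps]
  calc _ ≤ ∑ _u ∈ Icc 1 f, (1 : ℝ) := by
        refine Finset.sum_le_sum fun u _ => ?_
        have h1 : ∑ U ∈ (univ.filter (fun U : Finset (Fin N) => U.Nonempty ∧ U.card ≤ f)).filter
            (fun U => U.card = u), 1 / (N : ℝ) ^ U.card =
            ∑ _U ∈ (univ.filter (fun U : Finset (Fin N) => U.Nonempty ∧ U.card ≤ f)).filter
            (fun U => U.card = u), 1 / (N : ℝ) ^ u := by
          refine Finset.sum_congr rfl fun U hU => ?_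
          rw [(mem_filter.1 hU).2]
        rw [h1, Finset.sum_const, nsmul_eq_mul, mul_one_div, div_le_one (by positivity)]
        have h2 : ((univ.filter (fun U : Finset (Fin N) => U.Nonempty ∧ U.card ≤ f)).filter
            (fun U => U.card = u)).card ≤ N ^ u := by
          calc _ ≤ (powersetCard u (univ : Finset (Fin N))).card := by
                apply card_le_card
                intro U hU
                rw [mem_powersetCard]
                exact ⟨subset_univ _, (mem_filter.1 hU).2⟩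
            _ = N.choose u := by rw [card_powersetCard, card_univ, Fintype.card_fin]
            _ ≤ N ^ u := Nat.choose_le_pow _ _
        exact_mod_cast h2
    _ = f := by
        rw [Finset.sum_const, Nat.card_Icc, nsmul_eq_mul, mul_one, Nat.add_sub_cancel]

theorem s_bad : S_bad := by
  classical
  intro q s f
  refine ⟨(4 * ((f : ℝ) + 1)) ^ (q * s), by positivity, fun N M hN => ?_⟩
  have hN0 : (0 : ℝ) < N := by exact_mod_cast hN
  have hN1 : (1 : ℝ) ≤ N := by exact_mod_cast hN
  obtain ⟨C, hC⟩ : ∃ C : ℝ, C = (4 * ((f : ℝ) + 1)) ^ (q * s) := ⟨_, rfl⟩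
  have hC0 : 0 ≤ C := by rw [hC]; positivity
  rw [← hC]
  obtain ⟨A, hA⟩ : ∃ A, A = univ.filter (fun U : Finset (Fin N) => U.Nonempty ∧ U.card ≤ f) :=
    ⟨_, rfl⟩
  have h1 : ∀ e : Fin M → X q s → Fin N, ∑ U ∈ bad f e, (T e U : ℝ) ≤
      ∑ U ∈ A, (1 / (N : ℝ) ^ U.card) * ∏ j, (2 * (N : ℝ)) ^ (hits (e j) U - 1) := by
    intro e
    calc ∑ U ∈ bad f e, (T e U : ℝ) ≤
        ∑ U ∈ bad f e, (1 / (N : ℝ) ^ U.card) * ∏ j, (2 * (N : ℝ)) ^ (hits (e j) U - 1) := by
          refine Finset.sum_le_sum fun U hU => ?_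
          unfold bad at hU
          rw [mem_filter] at hU
          obtain ⟨-, -, -, hT⟩ := hU
          rw [Finset.prod_pow_eq_pow_sum]
          have e1 : ∑ j, (hits (e j) U - 1) = T e U := rfl
          rw [e1, one_div, inv_mul_eq_div, le_div_iff₀ (by positivity)]
          have e2 : (T e U : ℝ) ≤ 2 ^ (T e U) := by
            exact_mod_cast (Nat.lt_two_pow_self (n := T e U)).le
          have e3 : (N : ℝ) ^ U.card ≤ (N : ℝ) ^ (T e U) := pow_le_pow_right₀ hN1 hT
          rw [mul_pow]
          exact mul_le_mul e2 e3 (by positivity) (by positivity)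
      _ ≤ _ := by
          refine Finset.sum_le_sum_of_subset_of_nonneg ?_ fun U _ _ => by positivity
          intro U hU
          unfold bad at hU
          rw [mem_filter] at hU
          rw [hA, mem_filter]
          exact ⟨mem_univ _, hU.2.1, hU.2.2.1⟩
  have h2 : ∀ U ∈ A, ∑ e : Fin M → X q s → Fin N,
      (1 / (N : ℝ) ^ U.card) * ∏ j, (2 * (N : ℝ)) ^ (hits (e j) U - 1) ≤
      (1 / (N : ℝ) ^ U.card) * ((N : ℝ) ^ (q * s) * (1 + C / N)) ^ M := by
    intro U hU
    rw [hA, mem_filter] at hU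
    rw [← Finset.mul_sum]
    apply mul_le_mul_of_nonneg_left _ (by positivity)
    rw [← Fintype.sum_pow (fun g : X q s → Fin N => (2 * (N : ℝ)) ^ (hits g U - 1)) M, hC]
    exact pow_le_pow_left₀ (Finset.sum_nonneg fun g _ => by positivity)
      (one_block hN U hU.2.2) M
  calc ∑ e : Fin M → X q s → Fin N, ∑ U ∈ bad f e, (T e U : ℝ) ≤
      ∑ e : Fin M → X q s → Fin N, ∑ U ∈ A,
        (1 / (N : ℝ) ^ U.card) * ∏ j, (2 * (N : ℝ)) ^ (hits (e j) U - 1) :=
        Finset.sum_le_sum fun e _ => h1 e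
    _ = ∑ U ∈ A, ∑ e : Fin M → X q s → Fin N,
        (1 / (N : ℝ) ^ U.card) * ∏ j, (2 * (N : ℝ)) ^ (hits (e j) U - 1) := Finset.sum_comm
    _ ≤ ∑ U ∈ A, (1 / (N : ℝ) ^ U.card) * ((N : ℝ) ^ (q * s) * (1 + C / N)) ^ M :=
        Finset.sum_le_sum h2
    _ = (∑ U ∈ A, 1 / (N : ℝ) ^ U.card) * ((N : ℝ) ^ (q * s) * (1 + C / N)) ^ M := by
        rw [Finset.sum_mul]
    _ ≤ f * ((N : ℝ) ^ (q * s) * (1 + C / N)) ^ M := by
        apply mul_le_mul_of_nonneg_right _ (by positivity)
        rw [hA]
        exact sum_sets hN f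
    _ = f * (1 + C / N) ^ M * (N : ℝ) ^ (q * s * M) := by
        rw [mul_pow, ← pow_mul]
        ring
    _ ≤ f * Real.exp (C * (M / N)) * (N : ℝ) ^ (q * s * M) := by
        apply mul_le_mul_of_nonneg_right _ (by positivity)
        apply mul_le_mul_of_nonneg_left _ (Nat.cast_nonneg _)
        have e1 : Real.exp (C * (M / N)) = Real.exp (C / N) ^ M := by
          rw [← Real.exp_nat_mul]
          congr 1
          ring
        rw [e1]
        apply pow_le_pow_left₀ (by positivity)
        have := Real.add_one_le_exp (C / N)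
        linarith

end Pool.Agent.H870.CF
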